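import Pool.Agent.H25.RAlt

set_option autoImplicit false

namespace Pool.Agent.Results.MP_16f3b0_al.NoSeries

theorem result :
    ∃ (A : Type) (_ : NonUnitalNonAssocRing A),
      (∀ x y : A, x * y * y = x * (y * y)) ∧
      (∀ n : ℕ, n ≠ 0 → ∀ x : A, n • x = 0 → x = 0) ∧
      (∃ a b : A, NonUnitalSubring.closure ({a, b} : Set A) = ⊤) ∧
      ∀ (n : ℕ) (I : ℕ → TwoSidedIdeal A), I 0 = ⊥ → I n = ⊤ → (∀ k < n, I k ≤ I (k + 1)) →
        ∃ k < n, ∃ x ∈ I (k + 1), ∃ y ∈ I (k + 1), ∃ z ∈ I (k + 1),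
          x * y * z - x * (y * z) ∉ I k := by
  open Pool.Agent.H25.RAlt in
  refine ⟨A, inferInstance, ralt, tf, ⟨_, _, gen⟩, fun n I h0 hn _ => ?_⟩
  by_contra h
  push Not at h
  have key : ∀ k, k ≤ n → Pool.Agent.H25.RAlt.e 2 ∈ I k → Pool.Agent.H25.RAlt.e 2 ∈ I 0 := by
    intro k
    induction k with
    | zero => exact fun _ h => h
    | succ k ih => exact fun hk h2 => ih (by omega) (Pool.Agent.H25.RAlt.step _ _ (h k hk) h2)
  have := key n le_rfl (by rw [hn]; trivial)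
  rw [h0] at this
  exact Pool.Agent.H25.RAlt.e2 (by simpa using this)

end Pool.Agent.Results.MP_16f3b0_al.NoSeries
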